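import Pool.Agent.H44.NB.Defs

set_option autoImplicit false

namespace Pool.Agent.H44.NB

open Finset

namespace CH1aux

theorem cnt_succ (b a N m r : ℕ) (hb : 0 < b) (hr : r < b) :
    cnt b a (N + 1) (b * m + r) = cnt b a N m + (if r = a then 1 else 0) := by
  unfold cnt
  rw [Finset.card_filter, Finset.card_filter, Finset.sum_range_succ']
  congr 1
  · refine Finset.sum_congr rfl fun j _ => ?_
    have h1 : (b * m + r) / b ^ (j + 1) = m / b ^ j := by
      rw [pow_succ', ← Nat.div_div_eq_div_mul, Nat.mul_add_div hb, Nat.div_eq_of_lt hr,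
        add_zero]
    rw [h1]
  · have h2 : (b * m + r) / b ^ 0 % b = r := by
      rw [pow_zero, Nat.div_one, Nat.mul_add_mod, Nat.mod_eq_of_lt hr]
    rw [h2]

theorem moment (b a : ℕ) (hb : 0 < b) (ha : a < b) (z : ℝ) (N : ℕ) :
    ∑ m ∈ range (b ^ N), z ^ (cnt b a N m) = (b + (z - 1)) ^ N := by
  induction N with
  | zero => simp [cnt]
  | succ N ih =>
    have h1 : ∑ m ∈ range (b ^ (N + 1)), z ^ (cnt b a (N + 1) m) =
        ∑ p ∈ range (b ^ N) ×ˢ range b, z ^ (cnt b a (N + 1) (b * p.1 + p.2)) := by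
      refine Finset.sum_nbij' (fun m => (m / b, m % b)) (fun p => b * p.1 + p.2) ?_ ?_ ?_ ?_ ?_
      · intro m hm
        rw [Finset.mem_range] at hm
        rw [Finset.mem_product, Finset.mem_range, Finset.mem_range]
        exact ⟨Nat.div_lt_of_lt_mul (by rw [pow_succ'] at hm; exact hm), Nat.mod_lt _ hb⟩
      · intro p hp
        rw [Finset.mem_product, Finset.mem_range, Finset.mem_range] at hp
        rw [Finset.mem_range, pow_succ']
        calc b * p.1 + p.2 < b * p.1 + b := by omega
          _ = b * (p.1 + 1) := by ring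
          _ ≤ b * b ^ N := Nat.mul_le_mul_left _ hp.1
      · intro m _
        exact Nat.div_add_mod m b
      · intro p hp
        rw [Finset.mem_product, Finset.mem_range, Finset.mem_range] at hp
        refine Prod.ext ?_ ?_
        · show (b * p.1 + p.2) / b = p.1
          rw [Nat.mul_add_div hb, Nat.div_eq_of_lt hp.2, add_zero]
        · show (b * p.1 + p.2) % b = p.2
          rw [Nat.mul_add_mod, Nat.mod_eq_of_lt hp.2]
      · intro m _
        show z ^ cnt b a (N + 1) m = z ^ cnt b a (N + 1) (b * (m / b) + m % b)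
        rw [Nat.div_add_mod]
    rw [h1, Finset.sum_product]
    have h2 : ∀ m ∈ range (b ^ N), ∑ r ∈ range b, z ^ (cnt b a (N + 1) (b * m + r)) =
        z ^ (cnt b a N m) * (b + (z - 1)) := by
      intro m _
      have h3 : ∀ r ∈ range b, z ^ (cnt b a (N + 1) (b * m + r)) =
          z ^ (cnt b a N m) * (1 + if r = a then z - 1 else 0) := by
        intro r hr
        rw [cnt_succ b a N m r hb (Finset.mem_range.1 hr), pow_add]
        congr 1
        split_ifs
        · rw [pow_one]; ring
        · rw [pow_zero]; ring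
      rw [Finset.sum_congr rfl h3, ← Finset.mul_sum, Finset.sum_add_distrib,
        Finset.sum_ite_eq' (range b) a, if_pos (Finset.mem_range.2 ha)]
      simp
    rw [Finset.sum_congr rfl h2, ← Finset.sum_mul, ih, pow_succ]

end CH1aux

open CH1aux in
theorem CH1 : ∀ (b : ℕ), 2 ≤ b → ∀ ε : ℝ, 0 < ε → ∃ ρ : ℝ, 0 < ρ ∧ ρ < 1 ∧
    ∀ (N a : ℕ), a < b →
      (((range (b ^ N)).filter (fun m => ε * N < (cnt b a N m : ℝ) - N / b)).card : ℝ) ≤
        ρ ^ N * b ^ N := by
  intro b hb t ht
  have hbR : (2 : ℝ) ≤ b := by exact_mod_cast hb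
  have hb0 : (0 : ℝ) < b := by linarith
  set D : ℝ := (1 + t) ^ (1 / (b : ℝ) + t) with hD
  have hz : 0 < 1 + t := by linarith
  have hDpos : 0 < D := Real.rpow_pos_of_pos hz _
  have hnum : 0 < 1 + t / b := by positivity
  have hlt : 1 + t / b < D := by
    rw [hD, Real.lt_rpow_iff_log_lt hnum hz]
    have h1 : Real.log (1 + t / b) ≤ t / b := by
      have := Real.log_le_sub_one_of_pos hnum
      linarith
    have h2 := Real.le_log_one_add_of_nonneg ht.le
    refine lt_of_le_of_lt h1 (lt_of_lt_of_le ?_ (mul_le_mul_of_nonneg_left h2 (by positivity)))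
    rw [div_add' _ _ _ hb0.ne', div_mul_div_comm, div_lt_div_iff₀ hb0 (by positivity)]
    have h3 : 0 < t * t := mul_pos ht ht
    nlinarith [mul_pos hb0 hb0, mul_pos h3 hb0, mul_pos (mul_pos h3 hb0) hb0,
      mul_nonneg (mul_nonneg h3.le hb0.le) (by linarith : (0 : ℝ) ≤ b - 2)]
  refine ⟨(1 + t / b) / D, div_pos hnum hDpos, (div_lt_one hDpos).2 hlt, ?_⟩
  intro N a ha
  have hmom := moment b a (by omega) ha (1 + t) N
  set S := (range (b ^ N)).filter (fun m => t * N < (cnt b a N m : ℝ) - N / b) with hS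
  have hkey : (S.card : ℝ) * D ^ N ≤ (b + t) ^ N := by
    have e1 : (b + (1 + t - 1) : ℝ) = b + t := by ring
    rw [e1] at hmom
    rw [← hmom, ← nsmul_eq_mul, ← Finset.sum_const]
    calc ∑ _m ∈ S, D ^ N ≤ ∑ m ∈ S, (1 + t) ^ (cnt b a N m) := by
          refine Finset.sum_le_sum fun m hm => ?_
          rw [hS, Finset.mem_filter] at hm
          rw [hD, ← Real.rpow_natCast, ← Real.rpow_mul hz.le, ← Real.rpow_natCast (1 + t)]
          refine Real.rpow_le_rpow_of_exponent_le (by linarith) ?_
          have h4 := hm.2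
          have h5 : (1 / (b : ℝ) + t) * N = N / b + t * N := by ring
          rw [h5]
          linarith
      _ ≤ ∑ m ∈ range (b ^ N), (1 + t) ^ (cnt b a N m) := by
          refine Finset.sum_le_sum_of_subset_of_nonneg (Finset.filter_subset _ _) ?_
          intro m _ _
          positivity
  have hfin : ((1 + t / b) / D) ^ N * (b : ℝ) ^ N = (b + t) ^ N / D ^ N := by
    rw [div_pow, div_mul_eq_mul_div, ← mul_pow]
    congr 2
    field_simp
  rw [hfin, le_div_iff₀ (by positivity)]
  exact hkey

end Pool.Agent.H44.NB
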