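import Pool.Agent.H44.NB.Defs

/-!
# Chernoff bound for digit strings, lower tail
-/

set_option autoImplicit false

namespace Pool.Agent.H44.NB

open Finset

namespace CH2

theorem sum_split (f : ℕ → ℝ) (b K : ℕ) :
    ∑ m ∈ range (b * K), f m = ∑ m' ∈ range K, ∑ r ∈ range b, f (b * m' + r) := by
  induction K with
  | zero => simp
  | succ K ih => rw [Nat.mul_succ, sum_range_add, ih, sum_range_succ]

theorem cnt_step (b a N m r : ℕ) (hr : r < b) :
    cnt b a (N + 1) (b * m + r) = cnt b a N m + if r = a then 1 else 0 := by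
  have hb : 0 < b := by omega
  unfold cnt
  rw [card_filter, card_filter, sum_range_succ']
  congr 1
  · apply sum_congr rfl
    intro j _
    rw [pow_succ', ← Nat.div_div_eq_div_mul, Nat.mul_add_div hb, Nat.div_eq_of_lt hr, add_zero]
  · rw [pow_zero, Nat.div_one, Nat.mul_add_mod, Nat.mod_eq_of_lt hr]

theorem gen (b a : ℕ) (ha : a < b) (z : ℝ) (N : ℕ) :
    ∑ m ∈ range (b ^ N), z ^ (cnt b a N m) = (z + b - 1) ^ N := by
  induction N with
  | zero => simp [cnt]
  | succ N ih =>
    rw [pow_succ' b N, sum_split, pow_succ, ← ih, sum_mul]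
    apply sum_congr rfl
    intro m _
    have h1 : ∀ r ∈ range b, z ^ (cnt b a (N + 1) (b * m + r)) =
        z ^ (cnt b a N m) * (1 + if r = a then z - 1 else 0) := by
      intro r hr
      rw [cnt_step b a N m r (mem_range.1 hr), pow_add]
      split_ifs <;> simp
    rw [sum_congr rfl h1, ← mul_sum, sum_add_distrib, sum_ite_eq', if_pos (mem_range.2 ha)]
    simp only [sum_const, card_range, nsmul_eq_mul, mul_one]
    ring

end CH2

theorem CH2 : ∀ (b : ℕ), 2 ≤ b → ∀ ε : ℝ, 0 < ε → ∃ ρ : ℝ, 0 < ρ ∧ ρ < 1 ∧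
    ∀ (N a : ℕ), a < b →
      (((range (b ^ N)).filter (fun m => ε * N < N / b - (cnt b a N m : ℝ))).card : ℝ) ≤
        ρ ^ N * b ^ N := by
  intro b hb ε hε
  refine ⟨Real.exp (-(ε ^ 2 / 2)), Real.exp_pos _, ?_, ?_⟩
  · rw [Real.exp_lt_one_iff]
    have : 0 < ε ^ 2 := by positivity
    linarith
  intro N a ha
  have hb' : (2 : ℝ) ≤ b := by exact_mod_cast hb
  have hb0 : (0 : ℝ) < b := by linarith
  set z : ℝ := Real.exp (-ε) with hz
  have hz0 : 0 < z := Real.exp_pos _
  have hz1 : 1 - ε ≤ z := Real.one_sub_le_exp_neg ε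
  have hz2 : z * (1 + ε) ≤ 1 := by
    have h1 : 1 + ε ≤ Real.exp ε := by linarith [Real.add_one_le_exp ε]
    have h2 : z * Real.exp ε = 1 := by rw [hz, ← Real.exp_add]; simp
    nlinarith
  have hz3 : ε - ε ^ 2 ≤ 1 - z := by nlinarith
  set w : ℝ := ε * (1 / b - ε) with hw
  have h1 : (((range (b ^ N)).filter
      (fun m => ε * N < N / b - (cnt b a N m : ℝ))).card : ℝ) * Real.exp (-w) ^ N ≤
      (z + b - 1) ^ N := by
    rw [← CH2.gen b a ha z N]
    calc (((range (b ^ N)).filter
        (fun m => ε * N < N / b - (cnt b a N m : ℝ))).card : ℝ) * Real.exp (-w) ^ N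
        = ∑ m ∈ (range (b ^ N)).filter (fun m => ε * N < N / b - (cnt b a N m : ℝ)),
          Real.exp (-w) ^ N := by rw [sum_const, nsmul_eq_mul]
      _ ≤ ∑ m ∈ (range (b ^ N)).filter (fun m => ε * N < N / b - (cnt b a N m : ℝ)),
          z ^ (cnt b a N m) := by
          apply sum_le_sum
          intro m hm
          have hm' := (mem_filter.1 hm).2
          rw [hz, ← Real.exp_nat_mul, ← Real.exp_nat_mul, Real.exp_le_exp, hw]
          have h2 : (N : ℝ) * (1 / b) = N / b := by ring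
          have h3 : (cnt b a N m : ℝ) ≤ N / b - ε * N := by linarith
          have h4 := mul_le_mul_of_nonneg_left h3 hε.le
          have h5 : (N : ℝ) * -(ε * (1 / b - ε)) = -(ε * (N / b - ε * N)) := by ring
          rw [h5]
          linarith
      _ ≤ ∑ m ∈ range (b ^ N), z ^ (cnt b a N m) :=
          sum_le_sum_of_subset_of_nonneg (filter_subset _ _) (fun _ _ _ => by positivity)
  have h2 : z + b - 1 ≤ b * Real.exp (-((1 - z) / b)) := by
    have h3 := Real.one_sub_le_exp_neg ((1 - z) / b)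
    have h4 := mul_le_mul_of_nonneg_left h3 hb0.le
    have h5 : (b : ℝ) * (1 - (1 - z) / b) = z + b - 1 := by field_simp; ring
    linarith
  have h3 : (z + b - 1) ^ N ≤ (b * Real.exp (-((1 - z) / b))) ^ N :=
    pow_le_pow_left₀ (by linarith) h2 N
  have h4 : Real.exp (-((1 - z) / b)) * Real.exp w ≤ Real.exp (-(ε ^ 2 / 2)) := by
    rw [← Real.exp_add, Real.exp_le_exp, hw]
    have h5 : (ε - ε ^ 2) / b ≤ (1 - z) / b := div_le_div_of_nonneg_right hz3 hb0.le
    have h6 : (ε - ε ^ 2) / b = ε * (1 / b) - ε ^ 2 * (1 / b) := by ring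
    have h7 : (1 : ℝ) / b ≤ 1 / 2 := by
      apply one_div_le_one_div_of_le (by norm_num) hb'
    have h8 : ε ^ 2 * (1 / b) ≤ ε ^ 2 * (1 / 2) := mul_le_mul_of_nonneg_left h7 (by positivity)
    nlinarith
  have h5 : Real.exp (-w) ^ N * Real.exp w ^ N = 1 := by
    rw [← mul_pow, ← Real.exp_add]; simp
  calc (((range (b ^ N)).filter
      (fun m => ε * N < N / b - (cnt b a N m : ℝ))).card : ℝ)
      = (((range (b ^ N)).filter
      (fun m => ε * N < N / b - (cnt b a N m : ℝ))).card : ℝ) * Real.exp (-w) ^ N *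
        Real.exp w ^ N := by rw [mul_assoc, h5, mul_one]
    _ ≤ (b * Real.exp (-((1 - z) / b))) ^ N * Real.exp w ^ N :=
        mul_le_mul_of_nonneg_right (h1.trans h3) (by positivity)
    _ = (Real.exp (-((1 - z) / b)) * Real.exp w) ^ N * b ^ N := by
        rw [← mul_pow, ← mul_pow]; congr 1; ring
    _ ≤ Real.exp (-(ε ^ 2 / 2)) ^ N * b ^ N := by
        apply mul_le_mul_of_nonneg_right _ (by positivity)
        exact pow_le_pow_left₀ (by positivity) h4 N

end Pool.Agent.H44.NB
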