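import Pool.Agent.H44.NB.Defs

set_option autoImplicit false

namespace Pool.Agent.H44.NB

open Finset

theorem DG : St_DG := by
  intro b hb ξ N a ha
  have hb1 : 0 < b := by omega
  have hb0 : (0:ℤ) < b := by exact_mod_cast hb1
  have hbr : (0:ℝ) < b := by exact_mod_cast hb1
  obtain ⟨M, hM⟩ : ∃ M : ℤ, M = ⌊ξ * (b:ℝ) ^ N⌋ := ⟨_, rfl⟩
  rw [← hM]
  have hr0 : 0 ≤ M % ((b:ℤ) ^ N) := Int.emod_nonneg _ (by positivity)
  obtain ⟨r, hr⟩ : ∃ r : ℕ, M % ((b:ℤ) ^ N) = (r : ℤ) := Int.eq_ofNat_of_zero_le hr0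
  rw [hr, Int.toNat_natCast]
  have key : ∀ n : ℕ, 1 ≤ n → n ≤ N →
      (⌊ξ * (b:ℝ) ^ n⌋ % (b:ℤ) = (a:ℤ) ↔ (r / b ^ (N - n)) % b = a) := by
    intro n h1 h2
    have hK : (0:ℤ) < (b:ℤ) ^ (N - n) := by positivity
    have hKr : (0:ℝ) < (b:ℝ) ^ (N - n) := by positivity
    have hfl : ⌊ξ * (b:ℝ) ^ n⌋ = M / ((b:ℤ) ^ (N - n)) := by
      rw [Int.floor_eq_iff]
      have e1 : ξ * (b:ℝ) ^ N = (ξ * (b:ℝ) ^ n) * (b:ℝ) ^ (N - n) := by
        rw [mul_assoc, ← pow_add, Nat.add_sub_cancel' h2]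
      have f1 : (M:ℝ) ≤ ξ * (b:ℝ) ^ N := by rw [hM]; exact Int.floor_le _
      have f2 : ξ * (b:ℝ) ^ N < (M:ℝ) + 1 := by rw [hM]; exact Int.lt_floor_add_one _
      rw [e1] at f1 f2
      have g1 : M / (b:ℤ) ^ (N - n) * (b:ℤ) ^ (N - n) ≤ M := Int.ediv_mul_le M hK.ne'
      have g2 : M + 1 ≤ (M / (b:ℤ) ^ (N - n) + 1) * (b:ℤ) ^ (N - n) :=
        Int.lt_ediv_add_one_mul_self M hK
      have g1' : ((M / (b:ℤ) ^ (N - n) : ℤ) : ℝ) * (b:ℝ) ^ (N - n) ≤ M := by exact_mod_cast g1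
      have g2' : (M:ℝ) + 1 ≤ (((M / (b:ℤ) ^ (N - n) : ℤ) : ℝ) + 1) * (b:ℝ) ^ (N - n) := by
        exact_mod_cast g2
      constructor
      · exact le_of_mul_le_mul_right (g1'.trans f1) hKr
      · exact lt_of_mul_lt_mul_right (f2.trans_le g2') hKr.le
    have hs : M = (r:ℤ) + (b:ℤ) ^ (N - n) * ((b:ℤ) * ((b:ℤ) ^ (n - 1) * (M / (b:ℤ) ^ N))) := by
      have e2 : (b:ℤ) ^ (N - n) * ((b:ℤ) * ((b:ℤ) ^ (n - 1) * (M / (b:ℤ) ^ N))) =
          (b:ℤ) ^ N * (M / (b:ℤ) ^ N) := by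
        have e3 : (b:ℤ) ^ N = (b:ℤ) ^ (N - n) * ((b:ℤ) * (b:ℤ) ^ (n - 1)) := by
          rw [← pow_succ', ← pow_add]
          congr 1
          omega
        calc (b:ℤ) ^ (N - n) * ((b:ℤ) * ((b:ℤ) ^ (n - 1) * (M / (b:ℤ) ^ N)))
            = ((b:ℤ) ^ (N - n) * ((b:ℤ) * (b:ℤ) ^ (n - 1))) * (M / (b:ℤ) ^ N) := by ring
          _ = (b:ℤ) ^ N * (M / (b:ℤ) ^ N) := by rw [← e3]
      rw [e2, ← hr]
      exact (Int.emod_add_mul_ediv M ((b:ℤ) ^ N)).symm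
    have hq : M / (b:ℤ) ^ (N - n) % (b:ℤ) = ((r:ℤ) / (b:ℤ) ^ (N - n)) % (b:ℤ) := by
      conv_lhs => rw [hs]
      rw [Int.add_mul_ediv_left _ _ hK.ne', Int.add_mul_emod_self_left]
    rw [hfl, hq]
    constructor
    · intro h
      exact_mod_cast h
    · intro h
      exact_mod_cast h
  unfold cnt
  refine Finset.card_bij' (fun n _ => N - n) (fun j _ => N - j) ?_ ?_ ?_ ?_
  · intro n hn
    rw [Finset.mem_filter, Finset.mem_Icc] at hn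
    rw [Finset.mem_filter, Finset.mem_range]
    exact ⟨by omega, (key n hn.1.1 hn.1.2).1 hn.2⟩
  · intro j hj
    rw [Finset.mem_filter, Finset.mem_range] at hj
    rw [Finset.mem_filter, Finset.mem_Icc]
    refine ⟨⟨by omega, by omega⟩, (key (N - j) (by omega) (by omega)).2 ?_⟩
    have e : N - (N - j) = j := by omega
    rw [e]
    exact hj.2
  · intro n hn
    rw [Finset.mem_filter, Finset.mem_Icc] at hn
    show N - (N - n) = n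
    omega
  · intro j hj
    rw [Finset.mem_filter, Finset.mem_range] at hj
    show N - (N - j) = j
    omega

end Pool.Agent.H44.NB
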