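import Mathlib

/-!
# Digits of algebraic numbers: statements of the tasks
-/

set_option autoImplicit false

namespace Pool.Agent.H44.NB

open Finset

/-- number of digits equal to `a` among the last `N` base `b` digits of `m` -/
def cnt (b a N : ℕ) (m : ℕ) : ℕ := ((range N).filter (fun j => (m / b ^ j) % b = a)).card

/-- CH: Chernoff bound for digit strings -/
def St_CH : Prop := ∀ (b : ℕ), 2 ≤ b → ∀ ε : ℝ, 0 < ε → ∃ ρ : ℝ, 0 < ρ ∧ ρ < 1 ∧
  ∀ (N a : ℕ), a < b →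
    (((range (b ^ N)).filter (fun m => ε * N < |(cnt b a N m : ℝ) - N / b|)).card : ℝ) ≤
      2 * ρ ^ N * b ^ N

/-- DG: the first `N` digits of a real number -/
def St_DG : Prop := ∀ (b : ℕ), 2 ≤ b → ∀ (ξ : ℝ) (N a : ℕ), a < b →
  ((Icc 1 N).filter (fun n : ℕ => ⌊ξ * (b : ℝ) ^ n⌋ % (b : ℤ) = (a : ℤ))).card =
    cnt b a N ((⌊ξ * (b : ℝ) ^ N⌋ % ((b : ℤ) ^ N)).toNat)

/-- MC: counting integers in given residue classes -/
def St_MC : Prop := ∀ (M T : ℕ), 1 ≤ M → ∀ Bad : Finset ℕ,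
  ((Icc (-(((T + 1) * M : ℕ) : ℤ)) (((T + 1) * M : ℕ) : ℤ)).filter
    (fun m : ℤ => (m % (M : ℤ)).toNat ∈ Bad)).card ≤ (2 * T + 3) * Bad.card

end Pool.Agent.H44.NB
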