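import Mathlib
set_option autoImplicit false
namespace Pool.Agent.H44.NB
open Finset

/-- MW: strings of length `N` without the block `v` of length `k` at the aligned positions -/
def St_MW : Prop := ∀ (b k N v : ℕ), 2 ≤ b → 1 ≤ k → v < b ^ k →
  ((range (b ^ N)).filter (fun m => ∀ j < N / k, (m / b ^ (j * k)) % b ^ k ≠ v)).card ≤
    (b ^ k - 1) ^ (N / k) * b ^ (N - k * (N / k))

/-- SW: decay -/
def St_SW : Prop := ∀ b : ℕ, 2 ≤ b → ∃ C : ℝ, 0 ≤ C ∧ ∀ N : ℕ, 1 ≤ N →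
  ∑ k ∈ (Icc 1 N).filter (fun k => b ^ (2 * k) ≤ N),
    (b : ℝ) ^ k * (1 - 1 / (b : ℝ) ^ k) ^ (N / k) ≤ C / (N : ℝ) ^ 2

/-- K2: blocks of digits -/
def St_K2 : Prop := ∀ (b : ℕ), 2 ≤ b → ∀ (ξ : ℝ) (N n k : ℕ), k ≤ n → n ≤ N →
  ⌊ξ * (b : ℝ) ^ n⌋ % (b : ℤ) ^ k =
    ((((⌊ξ * (b : ℝ) ^ N⌋ % ((b : ℤ) ^ N)).toNat / b ^ (N - n)) % b ^ k : ℕ) : ℤ)

end Pool.Agent.H44.NB
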