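import Pool.Agent.H44.NB.Defs

/-! Task MC of helper44 (by helper135): counting integers in given residue classes. -/

set_option autoImplicit false

namespace Pool.Agent.H44.NB

open Finset

theorem MC : St_MC := by
  intro M T hM Bad
  have hM' : (0 : ℤ) < M := by exact_mod_cast hM
  have hcard : ((Icc (-((T : ℤ) + 1)) ((T : ℤ) + 1)) ×ˢ Bad).card = (2 * T + 3) * Bad.card := by
    rw [card_product, Int.card_Icc]
    congr 1
    omega
  rw [← hcard]
  apply Finset.card_le_card_of_injOn (fun m : ℤ => (m / (M : ℤ), (m % (M : ℤ)).toNat))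
  · intro m hm
    have hm' := Finset.mem_filter.1 (Finset.mem_coe.1 hm)
    obtain ⟨h1, h2⟩ := hm'
    rw [Finset.mem_Icc] at h1
    obtain ⟨h3, h4⟩ := h1
    push_cast at h3 h4
    apply Finset.mem_coe.2
    apply Finset.mem_product.2
    refine ⟨Finset.mem_Icc.2 ⟨?_, ?_⟩, h2⟩
    · apply Int.le_ediv_of_mul_le hM'
      linarith
    · have h5 : m / (M : ℤ) ≤ (((T : ℤ) + 1) * M) / (M : ℤ) := Int.ediv_le_ediv hM' h4
      rwa [Int.mul_ediv_cancel _ hM'.ne'] at h5
  · intro m _ m' _ h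
    have h1 : m / (M : ℤ) = m' / (M : ℤ) := congrArg Prod.fst h
    have h2 : (m % (M : ℤ)).toNat = (m' % (M : ℤ)).toNat := congrArg Prod.snd h
    have h3 := Int.emod_nonneg m hM'.ne'
    have h4 := Int.emod_nonneg m' hM'.ne'
    have h5 : m % (M : ℤ) = m' % (M : ℤ) := by omega
    have h6 := Int.mul_ediv_add_emod m (M : ℤ)
    have h7 := Int.mul_ediv_add_emod m' (M : ℤ)
    rw [← h6, ← h7, h1, h5]

end Pool.Agent.H44.NB
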