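import Pool.Agent.H44.NB.LC
import Pool.Agent.H44.NB.DG
import Pool.Agent.H44.NB.MC

/-!
# A general principle: rare prefixes are rare for algebraic numbers
-/

set_option autoImplicit false

namespace Pool.Agent.H44.NB

open Finset Polynomial Pool.Agent.Results.MP_c307ca_nt.AlmostAllToHeight

theorem DGkey (b : ℕ) (hb : 2 ≤ b) (ξ : ℝ) (N a : ℕ) : ∀ n : ℕ, 1 ≤ n → n ≤ N →
    (⌊ξ * (b:ℝ) ^ n⌋ % (b:ℤ) = (a:ℤ) ↔
      (((⌊ξ * (b:ℝ) ^ N⌋ % ((b : ℤ) ^ N)).toNat) / b ^ (N - n)) % b = a) := by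
  have hb1 : 0 < b := by omega
  have hb0 : (0:ℤ) < b := by exact_mod_cast hb1
  have hbr : (0:ℝ) < b := by exact_mod_cast hb1
  obtain ⟨M, hM⟩ : ∃ M : ℤ, M = ⌊ξ * (b:ℝ) ^ N⌋ := ⟨_, rfl⟩
  rw [← hM]
  have hr0 : 0 ≤ M % ((b:ℤ) ^ N) := Int.emod_nonneg _ (by positivity)
  obtain ⟨r, hr⟩ : ∃ r : ℕ, M % ((b:ℤ) ^ N) = (r : ℤ) := Int.eq_ofNat_of_zero_le hr0
  rw [hr, Int.toNat_natCast]
  have key : ∀ n : ℕ, 1 ≤ n → n ≤ N →
      (⌊ξ * (b:ℝ) ^ n⌋ % (b:ℤ) = (a:ℤ) ↔ (r / b ^ (N - n)) % b = a) := by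
    intro n h1 h2
    have hK : (0:ℤ) < (b:ℤ) ^ (N - n) := by positivity
    have hKr : (0:ℝ) < (b:ℝ) ^ (N - n) := by positivity
    have hfl : ⌊ξ * (b:ℝ) ^ n⌋ = M / ((b:ℤ) ^ (N - n)) := by
      rw [Int.floor_eq_iff]
      have e1 : ξ * (b:ℝ) ^ N = (ξ * (b:ℝ) ^ n) * (b:ℝ) ^ (N - n) := by
        rw [mul_assoc, ← pow_add, Nat.add_sub_cancel' h2]
      have f1 : (M:ℝ) ≤ ξ * (b:ℝ) ^ N := by rw [hM]; exact Int.floor_le _
      have f2 : ξ * (b:ℝ) ^ N < (M:ℝ) + 1 := by rw [hM]; exact Int.lt_floor_add_one _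
      rw [e1] at f1 f2
      have g1 : M / (b:ℤ) ^ (N - n) * (b:ℤ) ^ (N - n) ≤ M := Int.ediv_mul_le M hK.ne'
      have g2 : M + 1 ≤ (M / (b:ℤ) ^ (N - n) + 1) * (b:ℤ) ^ (N - n) :=
        Int.lt_ediv_add_one_mul_self M hK
      have g1' : ((M / (b:ℤ) ^ (N - n) : ℤ) : ℝ) * (b:ℝ) ^ (N - n) ≤ M := by exact_mod_cast g1
      have g2' : (M:ℝ) + 1 ≤ (((M / (b:ℤ) ^ (N - n) : ℤ) : ℝ) + 1) * (b:ℝ) ^ (N - n) := by
        exact_mod_cast g2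
      constructor
      · exact le_of_mul_le_mul_right (g1'.trans f1) hKr
      · exact lt_of_mul_lt_mul_right (f2.trans_le g2') hKr.le
    have hs : M = (r:ℤ) + (b:ℤ) ^ (N - n) * ((b:ℤ) * ((b:ℤ) ^ (n - 1) * (M / (b:ℤ) ^ N))) := by
      have e2 : (b:ℤ) ^ (N - n) * ((b:ℤ) * ((b:ℤ) ^ (n - 1) * (M / (b:ℤ) ^ N))) =
          (b:ℤ) ^ N * (M / (b:ℤ) ^ N) := by
        have e3 : (b:ℤ) ^ N = (b:ℤ) ^ (N - n) * ((b:ℤ) * (b:ℤ) ^ (n - 1)) := by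
          rw [← pow_succ', ← pow_add]
          congr 1
          omega
        calc (b:ℤ) ^ (N - n) * ((b:ℤ) * ((b:ℤ) ^ (n - 1) * (M / (b:ℤ) ^ N)))
            = ((b:ℤ) ^ (N - n) * ((b:ℤ) * (b:ℤ) ^ (n - 1))) * (M / (b:ℤ) ^ N) := by ring
          _ = (b:ℤ) ^ N * (M / (b:ℤ) ^ N) := by rw [← e3]
      rw [e2, ← hr]
      exact (Int.emod_add_mul_ediv M ((b:ℤ) ^ N)).symm
    have hq : M / (b:ℤ) ^ (N - n) % (b:ℤ) = ((r:ℤ) / (b:ℤ) ^ (N - n)) % (b:ℤ) := by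
      conv_lhs => rw [hs]
      rw [Int.add_mul_ediv_left _ _ hK.ne', Int.add_mul_emod_self_left]
    rw [hfl, hq]
    constructor
    · intro h
      exact_mod_cast h
    · intro h
      exact_mod_cast h
  exact key

theorem card_biUnion_real' {ι α : Type*} [DecidableEq α] (s : Finset ι) (f : ι → Finset α)
    (g : ι → ℝ) (h : ∀ i ∈ s, ((f i).card : ℝ) ≤ g i) :
    ((s.biUnion f).card : ℝ) ≤ ∑ i ∈ s, g i := by
  have h1 : ((s.biUnion f).card : ℝ) ≤ ((∑ i ∈ s, (f i).card : ℕ) : ℝ) :=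
    Nat.cast_le.mpr card_biUnion_le
  refine h1.trans ?_
  push_cast
  exact Finset.sum_le_sum h

open Classical in
theorem main_strings (d b : ℕ) (hb : 2 ≤ b) (Bad : ℕ → Finset ℕ) (C ρ : ℝ) (hC : 0 ≤ C)
    (hρ0 : 0 < ρ) (hρ1 : ρ < 1)
    (hρ : ∀ N : ℕ, ((Bad N).card : ℝ) ≤ C * ρ ^ N * b ^ N)
    (T : ℕ) (hT : 2 ≤ T) (n₀ : ℕ) (H : ℕ) (hH : 1 ≤ H)
    (BB : Finset (Fin (d + 1) → ℤ))
    (hB : ∀ v ∈ BB, (∀ i, |v i| ≤ (H : ℤ)) ∧ v (Fin.last d) ≠ 0 ∧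
      (∀ (p : ℤ) (q : ℤ), 0 < q → ev v ((p : ℝ) / q) ≠ 0) ∧
      ∃ ξ : ℝ, ev v ξ = 0 ∧ ∃ N : ℕ, n₀ ≤ N ∧ b ^ N ≤ H ∧
        (⌊ξ * (b : ℝ) ^ N⌋ % ((b : ℤ) ^ N)).toNat ∈ Bad N) :
    (BB.card : ℝ) ≤ (H : ℝ) ^ (d + 1) * (2 * 3 ^ d / (T - 1) +
      ((2 * T + 3) * C * (2 * KK d T * 4 ^ d)) * (ρ ^ n₀ / (1 - ρ))) := by
  have hH1 : (1 : ℝ) ≤ H := by exact_mod_cast hH
  have hbR : (1 : ℝ) ≤ b := by
    have : 1 ≤ b := by omega
    exact_mod_cast this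
  set MS : ℕ → Finset ℤ := fun N =>
    (Icc (-(((T + 1) * b ^ N : ℕ) : ℤ)) (((T + 1) * b ^ N : ℕ) : ℤ)).filter
      (fun m : ℤ => (m % ((b ^ N : ℕ) : ℤ)).toNat ∈ Bad N) with hMS
  set CC : ℕ → ℤ → Finset (Fin (d + 1) → ℤ) := fun N m =>
    (box (d + 1) (H : ℤ)).filter (fun v => (∀ (p : ℤ) (q : ℤ), 0 < q → ev v ((p : ℝ) / q) ≠ 0) ∧
      ∃ ξ : ℝ, ev v ξ = 0 ∧ |ξ| ≤ T ∧ |ξ - (m : ℝ) / ((b ^ N : ℕ) : ℝ)| ≤ 1 / (b : ℝ) ^ N)
    with hCC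
  set NN : Finset ℕ := (Ico n₀ (H + 1)).filter (fun N => b ^ N ≤ H) with hNN
  set MM : Finset (Fin (d + 1) → ℤ) := NN.biUnion fun N =>
    (MS N).biUnion fun m => CC N m with hMM
  have hsub : BB ⊆ LR d T H ∪ MM := by
    intro v hv
    obtain ⟨h1, h2, h3, ξ, h4, N, hN0, hNH, hdev⟩ := hB v hv
    rw [Finset.mem_union]
    by_cases hξ : (T : ℝ) < |ξ|
    · left
      unfold LR
      rw [Finset.mem_filter]
      exact ⟨mem_box h1, h2, lead_small d T H hT v h1 ξ h4 hξ⟩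
    · right
      rw [not_lt] at hξ
      have hbN : (0 : ℝ) < (b : ℝ) ^ N := by positivity
      have hbN1 : (1 : ℝ) ≤ (b : ℝ) ^ N := one_le_pow₀ hbR
      have hbNz : (0 : ℤ) < (b : ℤ) ^ N := by
        have : 0 < b ^ N := Nat.pow_pos (by omega)
        exact_mod_cast this
      have hNltH : N < b ^ N := Nat.lt_pow_self (by omega)
      rw [hMM, Finset.mem_biUnion]
      refine ⟨N, ?_, ?_⟩
      · rw [hNN, Finset.mem_filter, Finset.mem_Ico]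
        exact ⟨⟨hN0, by omega⟩, hNH⟩
      rw [Finset.mem_biUnion]
      have hf1 := Int.floor_le (ξ * (b : ℝ) ^ N)
      have hf2 := Int.lt_floor_add_one (ξ * (b : ℝ) ^ N)
      refine ⟨⌊ξ * (b : ℝ) ^ N⌋, ?_, ?_⟩
      · simp only [hMS]
        rw [Finset.mem_filter, mem_Icc]
        obtain ⟨g1, g2⟩ := abs_le.mp hξ
        refine ⟨⟨?_, ?_⟩, ?_⟩
        · have : (-(((T + 1) * b ^ N : ℕ) : ℝ)) < (⌊ξ * (b : ℝ) ^ N⌋ : ℝ) + 1 := by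
            push_cast
            nlinarith
          have h5 : -(((T + 1) * b ^ N : ℕ) : ℤ) < ⌊ξ * (b : ℝ) ^ N⌋ + 1 := by exact_mod_cast this
          omega
        · have : (⌊ξ * (b : ℝ) ^ N⌋ : ℝ) ≤ (((T + 1) * b ^ N : ℕ) : ℝ) := by
            push_cast
            nlinarith
          exact_mod_cast this
        · have h7 : (((b ^ N : ℕ) : ℤ)) = (b : ℤ) ^ N := by push_cast; rfl
          rw [h7]
          exact hdev
      · simp only [hCC]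
        rw [Finset.mem_filter]
        refine ⟨mem_box h1, h3, ξ, h4, hξ, ?_⟩
        push_cast
        have h11 : ξ - (⌊ξ * (b : ℝ) ^ N⌋ : ℝ) / (b : ℝ) ^ N =
            (ξ * (b : ℝ) ^ N - ⌊ξ * (b : ℝ) ^ N⌋) / (b : ℝ) ^ N := by
          field_simp
        rw [h11, abs_div, abs_of_pos hbN, div_le_div_iff_of_pos_right hbN, abs_le]
        constructor <;> linarith
  have hCCcard : ∀ N ∈ NN, ∀ m : ℤ, ((CC N m).card : ℝ) ≤
      (H : ℝ) ^ (d + 1) * (2 * KK d T * 4 ^ d) * (1 / (b : ℝ) ^ N) := by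
    intro N hN m
    rw [hNN, Finset.mem_filter] at hN
    have hbN1 : (1 : ℝ) ≤ (b : ℝ) ^ N := one_le_pow₀ hbR
    have hbN : (0 : ℝ) < (b : ℝ) ^ N := by linarith
    refine LC' d T H hH m (b ^ N) (Nat.pow_pos (by omega)) hN.2 (1 / (b : ℝ) ^ N)
      (by positivity) ?_ (CC N m) ?_
    · rw [div_le_one hbN]
      exact hbN1
    · intro v hv
      simp only [hCC] at hv
      rw [Finset.mem_filter] at hv
      refine ⟨fun i => ?_, hv.2⟩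
      have := (Fintype.mem_piFinset.mp hv.1) i
      rw [mem_Icc] at this
      exact abs_le.mpr this
  have hMMcard : (MM.card : ℝ) ≤ ∑ N ∈ NN, ∑ m ∈ MS N,
      (H : ℝ) ^ (d + 1) * (2 * KK d T * 4 ^ d) * (1 / (b : ℝ) ^ N) :=
    card_biUnion_real' _ _ _ fun N hN =>
      card_biUnion_real' _ _ _ fun m _ => hCCcard N hN m
  have hK0 := KK_nonneg d T
  have hstep : ∀ N ∈ NN, ∑ m ∈ MS N,
      (H : ℝ) ^ (d + 1) * (2 * KK d T * 4 ^ d) * (1 / (b : ℝ) ^ N) ≤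
      (H : ℝ) ^ (d + 1) * ((2 * T + 3) * C * (2 * KK d T * 4 ^ d)) * ρ ^ N := by
    intro N _
    have hbN : (0 : ℝ) < (b : ℝ) ^ N := by positivity
    have h1 := MC (b ^ N) T (Nat.pow_pos (by omega)) (Bad N)
    have h2 := hρ N
    have h3 : ((MS N).card : ℝ) ≤ (2 * T + 3) * (C * ρ ^ N * b ^ N) := by
      have h4 : ((MS N).card : ℝ) ≤ ((2 * T + 3 : ℕ) : ℝ) * ((Bad N).card : ℝ) := by
        exact_mod_cast h1
      push_cast at h4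
      exact h4.trans (mul_le_mul_of_nonneg_left h2 (by positivity))
    rw [Finset.sum_const, nsmul_eq_mul]
    calc ((MS N).card : ℝ) *
          ((H : ℝ) ^ (d + 1) * (2 * KK d T * 4 ^ d) * (1 / (b : ℝ) ^ N))
        ≤ ((2 * T + 3) * (C * ρ ^ N * b ^ N)) *
          ((H : ℝ) ^ (d + 1) * (2 * KK d T * 4 ^ d) * (1 / (b : ℝ) ^ N)) :=
          mul_le_mul_of_nonneg_right h3 (by positivity)
      _ = (H : ℝ) ^ (d + 1) * ((2 * T + 3) * C * (2 * KK d T * 4 ^ d)) * ρ ^ N := by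
          field_simp
  have hgeo : ∑ N ∈ NN, ρ ^ N ≤ ρ ^ n₀ / (1 - ρ) :=
    (Finset.sum_le_sum_of_subset_of_nonneg (Finset.filter_subset _ _)
      (fun i _ _ => by positivity)).trans (geom_sum_Ico_le_of_lt_one hρ0.le hρ1)
  have hMM2 : (MM.card : ℝ) ≤ (H : ℝ) ^ (d + 1) *
      (((2 * T + 3) * C * (2 * KK d T * 4 ^ d)) * (ρ ^ n₀ / (1 - ρ))) := by
    refine hMMcard.trans ((Finset.sum_le_sum hstep).trans ?_)
    rw [← Finset.mul_sum]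
    calc (H : ℝ) ^ (d + 1) * ((2 * T + 3) * C * (2 * KK d T * 4 ^ d)) * ∑ N ∈ NN, ρ ^ N
        ≤ (H : ℝ) ^ (d + 1) * ((2 * T + 3) * C * (2 * KK d T * 4 ^ d)) *
          (ρ ^ n₀ / (1 - ρ)) := mul_le_mul_of_nonneg_left hgeo (by positivity)
      _ = _ := by ring
  have h1 : (BB.card : ℝ) ≤ ((LR d T H).card : ℝ) + (MM.card : ℝ) := by
    have := (Finset.card_le_card hsub).trans (Finset.card_union_le _ _)
    exact_mod_cast this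
  have h2 := card_LR d T H hT hH
  calc (BB.card : ℝ) ≤ ((LR d T H).card : ℝ) + (MM.card : ℝ) := h1
    _ ≤ (H : ℝ) ^ (d + 1) * (2 * 3 ^ d / (T - 1)) + (H : ℝ) ^ (d + 1) *
      (((2 * T + 3) * C * (2 * KK d T * 4 ^ d)) * (ρ ^ n₀ / (1 - ρ))) := add_le_add h2 hMM2
    _ = _ := by ring


end Pool.Agent.H44.NB
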