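import Pool.Agent.H44.NB.Gen

/-!
# Rare prefixes, general summable version
-/

set_option autoImplicit false

namespace Pool.Agent.H44.NB

open Finset Polynomial Pool.Agent.Results.MP_c307ca_nt.AlmostAllToHeight

open Classical in
theorem main_strings2 (d b : ℕ) (hb : 2 ≤ b) (Bad : ℕ → Finset ℕ) (β : ℕ → ℝ) (τ : ℝ)
    (hβ0 : ∀ N, 0 ≤ β N) (n₀ : ℕ)
    (hρ : ∀ N : ℕ, n₀ ≤ N → ((Bad N).card : ℝ) ≤ β N * b ^ N)
    (hτ : ∀ M : ℕ, ∑ N ∈ Ico n₀ M, β N ≤ τ)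
    (T : ℕ) (hT : 2 ≤ T) (H : ℕ) (hH : 1 ≤ H)
    (BB : Finset (Fin (d + 1) → ℤ))
    (hB : ∀ v ∈ BB, (∀ i, |v i| ≤ (H : ℤ)) ∧ v (Fin.last d) ≠ 0 ∧
      (∀ (p : ℤ) (q : ℤ), 0 < q → ev v ((p : ℝ) / q) ≠ 0) ∧
      ∃ ξ : ℝ, ev v ξ = 0 ∧ ∃ N : ℕ, n₀ ≤ N ∧ b ^ N ≤ H ∧
        (⌊ξ * (b : ℝ) ^ N⌋ % ((b : ℤ) ^ N)).toNat ∈ Bad N) :
    (BB.card : ℝ) ≤ (H : ℝ) ^ (d + 1) * (2 * 3 ^ d / (T - 1) +
      ((2 * T + 3) * (2 * KK d T * 4 ^ d)) * τ) := by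
  have hH1 : (1 : ℝ) ≤ H := by exact_mod_cast hH
  have hbR : (1 : ℝ) ≤ b := by
    have : 1 ≤ b := by omega
    exact_mod_cast this
  set MS : ℕ → Finset ℤ := fun N =>
    (Icc (-(((T + 1) * b ^ N : ℕ) : ℤ)) (((T + 1) * b ^ N : ℕ) : ℤ)).filter
      (fun m : ℤ => (m % ((b ^ N : ℕ) : ℤ)).toNat ∈ Bad N) with hMS
  set CC : ℕ → ℤ → Finset (Fin (d + 1) → ℤ) := fun N m =>
    (box (d + 1) (H : ℤ)).filter (fun v => (∀ (p : ℤ) (q : ℤ), 0 < q → ev v ((p : ℝ) / q) ≠ 0) ∧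
      ∃ ξ : ℝ, ev v ξ = 0 ∧ |ξ| ≤ T ∧ |ξ - (m : ℝ) / ((b ^ N : ℕ) : ℝ)| ≤ 1 / (b : ℝ) ^ N)
    with hCC
  set NN : Finset ℕ := (Ico n₀ (H + 1)).filter (fun N => b ^ N ≤ H) with hNN
  set MM : Finset (Fin (d + 1) → ℤ) := NN.biUnion fun N =>
    (MS N).biUnion fun m => CC N m with hMM
  have hsub : BB ⊆ LR d T H ∪ MM := by
    intro v hv
    obtain ⟨h1, h2, h3, ξ, h4, N, hN0, hNH, hdev⟩ := hB v hv
    rw [Finset.mem_union]
    by_cases hξ : (T : ℝ) < |ξ|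
    · left
      unfold LR
      rw [Finset.mem_filter]
      exact ⟨mem_box h1, h2, lead_small d T H hT v h1 ξ h4 hξ⟩
    · right
      rw [not_lt] at hξ
      have hbN : (0 : ℝ) < (b : ℝ) ^ N := by positivity
      have hbN1 : (1 : ℝ) ≤ (b : ℝ) ^ N := one_le_pow₀ hbR
      have hbNz : (0 : ℤ) < (b : ℤ) ^ N := by
        have : 0 < b ^ N := Nat.pow_pos (by omega)
        exact_mod_cast this
      have hNltH : N < b ^ N := Nat.lt_pow_self (by omega)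
      rw [hMM, Finset.mem_biUnion]
      refine ⟨N, ?_, ?_⟩
      · rw [hNN, Finset.mem_filter, Finset.mem_Ico]
        exact ⟨⟨hN0, by omega⟩, hNH⟩
      rw [Finset.mem_biUnion]
      have hf1 := Int.floor_le (ξ * (b : ℝ) ^ N)
      have hf2 := Int.lt_floor_add_one (ξ * (b : ℝ) ^ N)
      refine ⟨⌊ξ * (b : ℝ) ^ N⌋, ?_, ?_⟩
      · simp only [hMS]
        rw [Finset.mem_filter, mem_Icc]
        obtain ⟨g1, g2⟩ := abs_le.mp hξ
        refine ⟨⟨?_, ?_⟩, ?_⟩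
        · have : (-(((T + 1) * b ^ N : ℕ) : ℝ)) < (⌊ξ * (b : ℝ) ^ N⌋ : ℝ) + 1 := by
            push_cast
            nlinarith
          have h5 : -(((T + 1) * b ^ N : ℕ) : ℤ) < ⌊ξ * (b : ℝ) ^ N⌋ + 1 := by exact_mod_cast this
          omega
        · have : (⌊ξ * (b : ℝ) ^ N⌋ : ℝ) ≤ (((T + 1) * b ^ N : ℕ) : ℝ) := by
            push_cast
            nlinarith
          exact_mod_cast this
        · have h7 : (((b ^ N : ℕ) : ℤ)) = (b : ℤ) ^ N := by push_cast; rfl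
          rw [h7]
          exact hdev
      · simp only [hCC]
        rw [Finset.mem_filter]
        refine ⟨mem_box h1, h3, ξ, h4, hξ, ?_⟩
        push_cast
        have h11 : ξ - (⌊ξ * (b : ℝ) ^ N⌋ : ℝ) / (b : ℝ) ^ N =
            (ξ * (b : ℝ) ^ N - ⌊ξ * (b : ℝ) ^ N⌋) / (b : ℝ) ^ N := by
          field_simp
        rw [h11, abs_div, abs_of_pos hbN, div_le_div_iff_of_pos_right hbN, abs_le]
        constructor <;> linarith
  have hCCcard : ∀ N ∈ NN, ∀ m : ℤ, ((CC N m).card : ℝ) ≤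
      (H : ℝ) ^ (d + 1) * (2 * KK d T * 4 ^ d) * (1 / (b : ℝ) ^ N) := by
    intro N hN m
    rw [hNN, Finset.mem_filter] at hN
    have hbN1 : (1 : ℝ) ≤ (b : ℝ) ^ N := one_le_pow₀ hbR
    have hbN : (0 : ℝ) < (b : ℝ) ^ N := by linarith
    refine LC' d T H hH m (b ^ N) (Nat.pow_pos (by omega)) hN.2 (1 / (b : ℝ) ^ N)
      (by positivity) ?_ (CC N m) ?_
    · rw [div_le_one hbN]
      exact hbN1
    · intro v hv
      simp only [hCC] at hv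
      rw [Finset.mem_filter] at hv
      refine ⟨fun i => ?_, hv.2⟩
      have := (Fintype.mem_piFinset.mp hv.1) i
      rw [mem_Icc] at this
      exact abs_le.mpr this
  have hMMcard : (MM.card : ℝ) ≤ ∑ N ∈ NN, ∑ m ∈ MS N,
      (H : ℝ) ^ (d + 1) * (2 * KK d T * 4 ^ d) * (1 / (b : ℝ) ^ N) :=
    card_biUnion_real' _ _ _ fun N hN =>
      card_biUnion_real' _ _ _ fun m _ => hCCcard N hN m
  have hK0 := KK_nonneg d T
  have hstep : ∀ N ∈ NN, ∑ m ∈ MS N,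
      (H : ℝ) ^ (d + 1) * (2 * KK d T * 4 ^ d) * (1 / (b : ℝ) ^ N) ≤
      (H : ℝ) ^ (d + 1) * ((2 * T + 3) * (2 * KK d T * 4 ^ d)) * β N := by
    intro N hN
    have hN0 : n₀ ≤ N := by
      rw [hNN, Finset.mem_filter, Finset.mem_Ico] at hN
      exact hN.1.1
    have hbN : (0 : ℝ) < (b : ℝ) ^ N := by positivity
    have hβN := hβ0 N
    have h1 := MC (b ^ N) T (Nat.pow_pos (by omega)) (Bad N)
    have h2 := hρ N hN0
    have h3 : ((MS N).card : ℝ) ≤ (2 * T + 3) * (β N * b ^ N) := by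
      have h4 : ((MS N).card : ℝ) ≤ ((2 * T + 3 : ℕ) : ℝ) * ((Bad N).card : ℝ) := by
        exact_mod_cast h1
      push_cast at h4
      exact h4.trans (mul_le_mul_of_nonneg_left h2 (by positivity))
    rw [Finset.sum_const, nsmul_eq_mul]
    calc ((MS N).card : ℝ) *
          ((H : ℝ) ^ (d + 1) * (2 * KK d T * 4 ^ d) * (1 / (b : ℝ) ^ N))
        ≤ ((2 * T + 3) * (β N * b ^ N)) *
          ((H : ℝ) ^ (d + 1) * (2 * KK d T * 4 ^ d) * (1 / (b : ℝ) ^ N)) :=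
          mul_le_mul_of_nonneg_right h3 (by positivity)
      _ = (H : ℝ) ^ (d + 1) * ((2 * T + 3) * (2 * KK d T * 4 ^ d)) * β N := by
          field_simp
  have hgeo : ∑ N ∈ NN, β N ≤ τ :=
    (Finset.sum_le_sum_of_subset_of_nonneg (Finset.filter_subset _ _)
      (fun i _ _ => hβ0 i)).trans (hτ (H + 1))
  have hMM2 : (MM.card : ℝ) ≤ (H : ℝ) ^ (d + 1) *
      (((2 * T + 3) * (2 * KK d T * 4 ^ d)) * τ) := by
    refine hMMcard.trans ((Finset.sum_le_sum hstep).trans ?_)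
    rw [← Finset.mul_sum]
    calc (H : ℝ) ^ (d + 1) * ((2 * T + 3) * (2 * KK d T * 4 ^ d)) * ∑ N ∈ NN, β N
        ≤ (H : ℝ) ^ (d + 1) * ((2 * T + 3) * (2 * KK d T * 4 ^ d)) *
          τ := mul_le_mul_of_nonneg_left hgeo (by positivity)
      _ = _ := by ring
  have h1 : (BB.card : ℝ) ≤ ((LR d T H).card : ℝ) + (MM.card : ℝ) := by
    have := (Finset.card_le_card hsub).trans (Finset.card_union_le _ _)
    exact_mod_cast this
  have h2 := card_LR d T H hT hH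
  calc (BB.card : ℝ) ≤ ((LR d T H).card : ℝ) + (MM.card : ℝ) := h1
    _ ≤ (H : ℝ) ^ (d + 1) * (2 * 3 ^ d / (T - 1)) + (H : ℝ) ^ (d + 1) *
      (((2 * T + 3) * (2 * KK d T * 4 ^ d)) * τ) := add_le_add h2 hMM2
    _ = _ := by ring


end Pool.Agent.H44.NB
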