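import Pool.Agent.H44.NB.Defs2

set_option autoImplicit false

namespace Pool.Agent.H44.NB

open Finset

theorem K2 : St_K2 := by
  intro b hb ξ N n k hkn h2
  have hb1 : 0 < b := by omega
  have hb0 : (0:ℤ) < b := by exact_mod_cast hb1
  have hbr : (0:ℝ) < b := by exact_mod_cast hb1
  obtain ⟨M, hM⟩ : ∃ M : ℤ, M = ⌊ξ * (b:ℝ) ^ N⌋ := ⟨_, rfl⟩
  rw [← hM]
  have hr0 : 0 ≤ M % ((b:ℤ) ^ N) := Int.emod_nonneg _ (by positivity)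
  obtain ⟨r, hr⟩ : ∃ r : ℕ, M % ((b:ℤ) ^ N) = (r : ℤ) := Int.eq_ofNat_of_zero_le hr0
  rw [hr, Int.toNat_natCast]
  have hK : (0:ℤ) < (b:ℤ) ^ (N - n) := by positivity
  have hKr : (0:ℝ) < (b:ℝ) ^ (N - n) := by positivity
  have hfl : ⌊ξ * (b:ℝ) ^ n⌋ = M / ((b:ℤ) ^ (N - n)) := by
    rw [Int.floor_eq_iff]
    have e1 : ξ * (b:ℝ) ^ N = (ξ * (b:ℝ) ^ n) * (b:ℝ) ^ (N - n) := by
      rw [mul_assoc, ← pow_add, Nat.add_sub_cancel' h2]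
    have f1 : (M:ℝ) ≤ ξ * (b:ℝ) ^ N := by rw [hM]; exact Int.floor_le _
    have f2 : ξ * (b:ℝ) ^ N < (M:ℝ) + 1 := by rw [hM]; exact Int.lt_floor_add_one _
    rw [e1] at f1 f2
    have g1 : M / (b:ℤ) ^ (N - n) * (b:ℤ) ^ (N - n) ≤ M := Int.ediv_mul_le M hK.ne'
    have g2 : M + 1 ≤ (M / (b:ℤ) ^ (N - n) + 1) * (b:ℤ) ^ (N - n) :=
      Int.lt_ediv_add_one_mul_self M hK
    have g1' : ((M / (b:ℤ) ^ (N - n) : ℤ) : ℝ) * (b:ℝ) ^ (N - n) ≤ M := by exact_mod_cast g1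
    have g2' : (M:ℝ) + 1 ≤ (((M / (b:ℤ) ^ (N - n) : ℤ) : ℝ) + 1) * (b:ℝ) ^ (N - n) := by
      exact_mod_cast g2
    constructor
    · exact le_of_mul_le_mul_right (g1'.trans f1) hKr
    · exact lt_of_mul_lt_mul_right (f2.trans_le g2') hKr.le
  have hs : M = (r:ℤ) + (b:ℤ) ^ (N - n) * ((b:ℤ) ^ k * ((b:ℤ) ^ (n - k) * (M / (b:ℤ) ^ N))) := by
    have e2 : (b:ℤ) ^ (N - n) * ((b:ℤ) ^ k * ((b:ℤ) ^ (n - k) * (M / (b:ℤ) ^ N))) =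
        (b:ℤ) ^ N * (M / (b:ℤ) ^ N) := by
      have e3 : (b:ℤ) ^ N = (b:ℤ) ^ (N - n) * ((b:ℤ) ^ k * (b:ℤ) ^ (n - k)) := by
        rw [← pow_add, ← pow_add]
        congr 1
        omega
      calc (b:ℤ) ^ (N - n) * ((b:ℤ) ^ k * ((b:ℤ) ^ (n - k) * (M / (b:ℤ) ^ N)))
          = ((b:ℤ) ^ (N - n) * ((b:ℤ) ^ k * (b:ℤ) ^ (n - k))) * (M / (b:ℤ) ^ N) := by ring
        _ = (b:ℤ) ^ N * (M / (b:ℤ) ^ N) := by rw [← e3]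
    rw [e2, ← hr]
    exact (Int.emod_add_mul_ediv M ((b:ℤ) ^ N)).symm
  have hq : M / (b:ℤ) ^ (N - n) % (b:ℤ) ^ k = ((r:ℤ) / (b:ℤ) ^ (N - n)) % (b:ℤ) ^ k := by
    conv_lhs => rw [hs]
    rw [Int.add_mul_ediv_left _ _ hK.ne', Int.add_mul_emod_self_left]
  rw [hfl, hq]
  push_cast
  rfl

end Pool.Agent.H44.NB
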