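import Pool.Agent.Results.MP_c307ca_nt.AlmostAllToHeight

/-!
# Counting polynomials with a root close to a given rational number
-/

set_option autoImplicit false

namespace Pool.Agent.H44.NB

open Finset Polynomial Pool.Agent.Results.MP_c307ca_nt.AlmostAllToHeight

theorem LC (d T H : ℕ) (hH : 1 ≤ H) (p : ℤ) (q : ℕ) (hq1 : 1 ≤ q) (hqH : q ≤ H)
    (hpq : IsCoprime p (q : ℤ)) (δ : ℝ) (hδ0 : 0 ≤ δ) (hδ1 : δ ≤ 1)
    (BB : Finset (Fin (d + 1) → ℤ)) (hB : ∀ a ∈ BB, (∀ i, |a i| ≤ (H : ℤ)) ∧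
      (∀ (p : ℤ) (q : ℤ), 0 < q → ev a ((p : ℝ) / q) ≠ 0) ∧
      ∃ ξ : ℝ, ev a ξ = 0 ∧ |ξ| ≤ T ∧ |ξ - (p : ℝ) / q| ≤ δ) :
    (BB.card : ℝ) ≤ (H : ℝ) ^ (d + 1) * (2 * KK d T * 4 ^ d) * δ := by
  classical
  have hH1 : (1 : ℝ) ≤ H := by exact_mod_cast hH
  have hq0 : (0 : ℝ) < q := by exact_mod_cast hq1
  have hqz : (0 : ℤ) < q := by exact_mod_cast hq1
  have hqHz : (q : ℤ) ≤ (H : ℤ) := by exact_mod_cast hqH
  set B : ℝ := KK d T * H * δ * (q : ℝ) ^ d with hBdef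
  have hB0 : 0 ≤ B := by
    have h1 := KK_nonneg d T
    simp only [hBdef]
    positivity
  have hsub : BB ⊆ ((Icc (-⌊B⌋) ⌊B⌋).erase 0).biUnion fun N : ℤ =>
        (box (d + 1) (H : ℤ)).filter (fun a => frm p q d a = N) := by
    intro a ha
    obtain ⟨h1, h3, ξ, h4, hξ, hle⟩ := hB a ha
    have hy : |(p : ℝ) / q| ≤ T + 1 := by
      have h6 : (p : ℝ) / q = ξ - (ξ - (p : ℝ) / q) := by ring
      rw [h6]
      refine (abs_sub _ _).trans ?_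
      linarith
    have hξ' : |ξ| ≤ T + 1 := by linarith
    have hN : |((frm p q d a : ℤ) : ℝ)| ≤ B := by
      rw [frm_eq a p q hqz]
      push_cast
      rw [abs_mul, abs_of_nonneg (by positivity : (0 : ℝ) ≤ (q : ℝ) ^ d)]
      have h7 := ev_sub d T H a h1 ((p : ℝ) / q) ξ hy hξ'
      rw [h4, sub_zero] at h7
      have h8 : |(p : ℝ) / q - ξ| ≤ δ := by rw [abs_sub_comm]; exact hle
      calc (q : ℝ) ^ d * |ev a ((p : ℝ) / q)|
          ≤ (q : ℝ) ^ d * (KK d T * H * |(p : ℝ) / q - ξ|) :=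
            mul_le_mul_of_nonneg_left h7 (by positivity)
        _ ≤ (q : ℝ) ^ d * (KK d T * H * δ) := by
            refine mul_le_mul_of_nonneg_left ?_ (by positivity)
            exact mul_le_mul_of_nonneg_left h8 (mul_nonneg (KK_nonneg d T) (by positivity))
        _ = B := by simp only [hBdef]; ring
    have hN0 : frm p q d a ≠ 0 := by
      intro h9
      have h10 := frm_eq a p q hqz
      rw [h9, Int.cast_zero] at h10
      have h11 := h3 p q hqz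
      have h12 : ((q : ℤ) : ℝ) ^ d ≠ 0 := by
        have : ((q : ℤ) : ℝ) ≠ 0 := by exact_mod_cast hqz.ne'
        positivity
      rcases mul_eq_zero.mp h10.symm with h13 | h13
      · exact h12 h13
      · exact h11 h13
    rw [Finset.mem_biUnion]
    refine ⟨frm p q d a, ?_, ?_⟩
    · rw [Finset.mem_erase, mem_Icc]
      refine ⟨hN0, ?_⟩
      have h15 : |frm p q d a| ≤ ⌊B⌋ := by
        rw [Int.le_floor]
        push_cast
        exact hN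
      exact abs_le.mp h15
    · rw [Finset.mem_filter]
      exact ⟨mem_box h1, rfl⟩
  have e3 : (((Icc (-⌊B⌋) ⌊B⌋).erase 0).biUnion fun N : ℤ =>
      (box (d + 1) (H : ℤ)).filter (fun a => frm p q d a = N)).card ≤
      ∑ N ∈ (Icc (-⌊B⌋) ⌊B⌋).erase 0,
        ((box (d + 1) (H : ℤ)).filter (fun a => frm p q d a = N)).card :=
    Finset.card_biUnion_le
  have e4 : (∑ N ∈ (Icc (-⌊B⌋) ⌊B⌋).erase 0,
        (((box (d + 1) (H : ℤ)).filter (fun a => frm p q d a = N)).card : ℝ)) ≤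
      ∑ _N ∈ (Icc (-⌊B⌋) ⌊B⌋).erase 0, (4 * (H : ℝ) / q) ^ d := by
    refine Finset.sum_le_sum fun N _ => ?_
    have := card_sol (H : ℤ) (q : ℤ) p hqz hqHz hpq d N
    rw [Int.cast_natCast, Int.cast_natCast] at this
    exact this
  have hfl0 : 0 ≤ ⌊B⌋ := Int.floor_nonneg.mpr hB0
  have e5 : (((Icc (-⌊B⌋) ⌊B⌋).erase 0).card : ℝ) ≤ 2 * B := by
    rw [Finset.card_erase_of_mem (by rw [mem_Icc]; omega), Int.card_Icc]
    have e6 : (⌊B⌋ + 1 - -⌊B⌋).toNat - 1 = (2 * ⌊B⌋).toNat := by omega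
    rw [e6]
    have e7 : (((2 * ⌊B⌋).toNat : ℕ) : ℝ) = 2 * ((⌊B⌋ : ℤ) : ℝ) := by
      have h7 : (((2 * ⌊B⌋).toNat : ℕ) : ℤ) = 2 * ⌊B⌋ := Int.toNat_of_nonneg (by omega)
      calc (((2 * ⌊B⌋).toNat : ℕ) : ℝ) = ((((2 * ⌊B⌋).toNat : ℕ) : ℤ) : ℝ) :=
            (Int.cast_natCast _).symm
        _ = ((2 * ⌊B⌋ : ℤ) : ℝ) := by rw [h7]
        _ = 2 * ((⌊B⌋ : ℤ) : ℝ) := by push_cast; ring
    rw [e7]
    have := Int.floor_le B
    linarith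
  calc (BB.card : ℝ) ≤ ((((Icc (-⌊B⌋) ⌊B⌋).erase 0).biUnion fun N : ℤ =>
      (box (d + 1) (H : ℤ)).filter (fun a => frm p q d a = N)).card : ℝ) := by
        exact_mod_cast Finset.card_le_card hsub
    _ ≤ ∑ N ∈ (Icc (-⌊B⌋) ⌊B⌋).erase 0,
        (((box (d + 1) (H : ℤ)).filter (fun a => frm p q d a = N)).card : ℝ) := by
        exact_mod_cast e3
    _ ≤ ∑ _N ∈ (Icc (-⌊B⌋) ⌊B⌋).erase 0, (4 * (H : ℝ) / q) ^ d := e4
    _ = (((Icc (-⌊B⌋) ⌊B⌋).erase 0).card : ℝ) * (4 * (H : ℝ) / q) ^ d := by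
        rw [Finset.sum_const, nsmul_eq_mul]
    _ ≤ (2 * B) * (4 * H / q) ^ d := mul_le_mul_of_nonneg_right e5 (by positivity)
    _ = (H : ℝ) ^ (d + 1) * (2 * KK d T * 4 ^ d) * δ := by
        simp only [hBdef]
        rw [div_pow, mul_pow, pow_succ]
        field_simp

/-- the same for a fraction which need not be reduced -/
theorem LC' (d T H : ℕ) (hH : 1 ≤ H) (m : ℤ) (Q : ℕ) (hQ1 : 1 ≤ Q) (hQH : Q ≤ H)
    (δ : ℝ) (hδ0 : 0 ≤ δ) (hδ1 : δ ≤ 1)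
    (BB : Finset (Fin (d + 1) → ℤ)) (hB : ∀ a ∈ BB, (∀ i, |a i| ≤ (H : ℤ)) ∧
      (∀ (p : ℤ) (q : ℤ), 0 < q → ev a ((p : ℝ) / q) ≠ 0) ∧
      ∃ ξ : ℝ, ev a ξ = 0 ∧ |ξ| ≤ T ∧ |ξ - (m : ℝ) / Q| ≤ δ) :
    (BB.card : ℝ) ≤ (H : ℝ) ^ (d + 1) * (2 * KK d T * 4 ^ d) * δ := by
  set r : ℚ := (m : ℚ) / ((Q : ℤ) : ℚ) with hr
  have h1 : (m : ℝ) / Q = (r.num : ℝ) / (r.den : ℝ) := by
    have h2 : ((r : ℚ) : ℝ) = (r.num : ℝ) / (r.den : ℝ) := Rat.cast_def r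
    rw [← h2, hr]
    push_cast
    rfl
  have h3 : (r.den : ℤ) ∣ (Q : ℤ) := by
    rw [hr, ← Rat.divInt_eq_div]
    exact Rat.den_dvd m (Q : ℤ)
  have h4 : r.den ≤ Q := Nat.le_of_dvd (by omega) (by exact_mod_cast h3)
  have h5 : 1 ≤ r.den := r.den_pos
  have h6 : IsCoprime r.num (r.den : ℤ) :=
    Int.isCoprime_iff_gcd_eq_one.mpr (by simpa [Int.gcd] using r.reduced)
  rw [h1] at hB
  exact LC d T H hH r.num r.den h5 (h4.trans hQH) h6 δ hδ0 hδ1 BB hB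

end Pool.Agent.H44.NB
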