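import Pool.Agent.H44.NB.Defs2

set_option autoImplicit false

namespace Pool.Agent.H44.NB

open Finset

theorem MW_aux (b k v : ℕ) (hb : 2 ≤ b) (hk : 1 ≤ k) (hv : v < b ^ k) : ∀ (q N : ℕ), N / k = q →
    ((range (b ^ N)).filter (fun m => ∀ j < N / k, (m / b ^ (j * k)) % b ^ k ≠ v)).card ≤
      (b ^ k - 1) ^ q * b ^ (N - k * q) := by
  intro q
  have hbk : 0 < b ^ k := by positivity
  induction q with
  | zero =>
    intro N _
    rw [pow_zero, one_mul, mul_zero, Nat.sub_zero]
    exact (Finset.card_filter_le _ _).trans (le_of_eq (Finset.card_range _))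
  | succ q ih =>
    intro N hN
    have hkN : k ≤ N := by
      by_contra h
      rw [Nat.div_eq_of_lt (by omega)] at hN
      omega
    have hN' : (N - k) / k = q := by
      have h1 := Nat.div_eq_sub_div (show 0 < k by omega) hkN
      omega
    have h := Finset.card_le_card_of_injOn
      (s := (range (b ^ N)).filter (fun m => ∀ j < N / k, (m / b ^ (j * k)) % b ^ k ≠ v))
      (t := ((range (b ^ k)).erase v) ×ˢ ((range (b ^ (N - k))).filter
        (fun m => ∀ j < (N - k) / k, (m / b ^ (j * k)) % b ^ k ≠ v)))
      (fun m => (m % b ^ k, m / b ^ k))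
      (by
        intro m hm
        rw [Finset.mem_coe, Finset.mem_filter, Finset.mem_range] at hm
        rw [Finset.mem_coe, Finset.mem_product, Finset.mem_erase, Finset.mem_range,
          Finset.mem_filter, Finset.mem_range]
        refine ⟨⟨?_, Nat.mod_lt _ hbk⟩, ?_, ?_⟩
        · have := hm.2 0 (by omega)
          rwa [zero_mul, pow_zero, Nat.div_one] at this
        · show m / b ^ k < b ^ (N - k)
          rw [Nat.div_lt_iff_lt_mul hbk, ← pow_add, Nat.sub_add_cancel hkN]
          exact hm.1
        · intro j hj
          have h1 := hm.2 (j + 1) (by omega)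
          show (m / b ^ k / b ^ (j * k)) % b ^ k ≠ v
          rw [Nat.div_div_eq_div_mul, ← pow_add]
          have e : k + j * k = (j + 1) * k := by ring
          rw [e]
          exact h1)
      (by
        intro m _ m' _ heq
        have h1 : m % b ^ k = m' % b ^ k := congrArg Prod.fst heq
        have h2 : m / b ^ k = m' / b ^ k := congrArg Prod.snd heq
        rw [← Nat.div_add_mod m (b ^ k), ← Nat.div_add_mod m' (b ^ k), h1, h2])
    rw [Finset.card_product, Finset.card_erase_of_mem (Finset.mem_range.2 hv),
      Finset.card_range] at h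
    refine h.trans ?_
    have h3 := ih (N - k) hN'
    calc (b ^ k - 1) * _ ≤ (b ^ k - 1) * ((b ^ k - 1) ^ q * b ^ (N - k - k * q)) :=
          Nat.mul_le_mul_left _ h3
      _ = (b ^ k - 1) ^ (q + 1) * b ^ (N - k * (q + 1)) := by
        have e : N - k - k * q = N - k * (q + 1) := by
          rw [Nat.sub_sub]; congr 1; ring
        rw [e, pow_succ']
        ring

theorem MW : St_MW := by
  intro b k N v hb hk hv
  exact MW_aux b k v hb hk hv (N / k) N rfl

end Pool.Agent.H44.NB
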