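import Pool.Agent.H44.NB.PalDefs

set_option autoImplicit false

namespace Pool.Agent.H44.NB

open Finset

theorem PA_ext (b : ℕ) (hb : 2 ≤ b) : ∀ (N m m' : ℕ), m < b ^ N → m' < b ^ N →
    (∀ j < N, (m / b ^ j) % b = (m' / b ^ j) % b) → m = m' := by
  intro N
  induction N with
  | zero =>
    intro m m' h1 h2 _
    rw [pow_zero] at h1 h2
    omega
  | succ N ih =>
    intro m m' h1 h2 h
    have hb0 : 0 < b := by omega
    have e0 := h 0 (by omega)
    rw [pow_zero, Nat.div_one, Nat.div_one] at e0
    have e1 : m / b = m' / b := by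
      apply ih
      · rw [Nat.div_lt_iff_lt_mul hb0, ← pow_succ]; exact h1
      · rw [Nat.div_lt_iff_lt_mul hb0, ← pow_succ]; exact h2
      · intro j hj
        have := h (j + 1) (by omega)
        rw [Nat.div_div_eq_div_mul, Nat.div_div_eq_div_mul, ← pow_succ']
        exact this
    rw [← Nat.div_add_mod m b, ← Nat.div_add_mod m' b, e0, e1]

theorem PA_dig (b K j m : ℕ) (hj : j < K) : ((m % b ^ K) / b ^ j) % b = (m / b ^ j) % b := by
  have e : b ^ K = b ^ j * b ^ (K - j) := by rw [← pow_add]; congr 1; omega
  rw [e, Nat.mod_mul_right_div_self]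
  exact Nat.mod_mod_of_dvd _ (dvd_pow_self b (by omega))

theorem PA : St_PA := by
  intro b N hb
  have hb0 : 0 < b := by omega
  have h := Finset.card_le_card_of_injOn
    (s := (range (b ^ N)).filter (fun m => ∀ j < N, (m / b ^ j) % b = (m / b ^ (N - 1 - j)) % b))
    (t := range (b ^ (N - N / 2))) (fun m => m % b ^ (N - N / 2))
    (by
      intro m _
      rw [Finset.mem_coe, Finset.mem_range]
      exact Nat.mod_lt _ (by positivity))
    (by
      intro m hm m' hm' heq
      rw [Finset.mem_coe, Finset.mem_filter, Finset.mem_range] at hm hm'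
      have heq' : m % b ^ (N - N / 2) = m' % b ^ (N - N / 2) := heq
      have low : ∀ j, j < N - N / 2 → (m / b ^ j) % b = (m' / b ^ j) % b := by
        intro j hj
        rw [← PA_dig b (N - N / 2) j m hj, ← PA_dig b (N - N / 2) j m' hj, heq']
      refine PA_ext b hb N m m' hm.1 hm'.1 (fun j hj => ?_)
      by_cases hlt : j < N - N / 2
      · exact low j hlt
      · rw [hm.2 j hj, hm'.2 j hj]
        exact low _ (by omega))
  rw [Finset.card_range] at h
  exact h

end Pool.Agent.H44.NB
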