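import Mathlib
set_option autoImplicit false
namespace Pool.Agent.H44.NB
open Finset
/-- PA: the number of palindromes among the digit strings of length `N` -/
def St_PA : Prop := ∀ (b N : ℕ), 2 ≤ b →
  ((range (b ^ N)).filter (fun m => ∀ j < N, (m / b ^ j) % b = (m / b ^ (N - 1 - j)) % b)).card ≤
    b ^ (N - N / 2)
end Pool.Agent.H44.NB
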