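import Pool.Agent.H44.NB.Defs2

set_option autoImplicit false

namespace Pool.Agent.H44.NB

open Finset

theorem SW_sq (k : ℕ) : k ^ 2 ≤ 4 * 2 ^ k := by
  induction k with
  | zero => norm_num
  | succ k ih =>
    have h1 : k < 2 ^ k := Nat.lt_two_pow_self
    rw [pow_succ 2 k]
    nlinarith

theorem SW : St_SW := by
  intro b hb
  refine ⟨4 ^ 16 * (Nat.factorial 16 : ℝ), by positivity, ?_⟩
  intro N hN
  have hNr : (1 : ℝ) ≤ N := by exact_mod_cast hN
  have hN0 : (0 : ℝ) < N := by linarith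
  obtain ⟨y, hy0, hy⟩ : ∃ y : ℝ, 0 < y ∧ y ^ 4 = N :=
    ⟨Real.sqrt (Real.sqrt N), by positivity, by
      have h1 : Real.sqrt (Real.sqrt N) ^ 4 = (Real.sqrt (Real.sqrt N) ^ 2) ^ 2 := by ring
      rw [h1, Real.sq_sqrt (Real.sqrt_nonneg _), Real.sq_sqrt hN0.le]⟩
  have hterm : ∀ k ∈ (Icc 1 N).filter (fun k => b ^ (2 * k) ≤ N),
      (b : ℝ) ^ k * (1 - 1 / (b : ℝ) ^ k) ^ (N / k) ≤ N * Real.exp (-(y / 4)) := by
    intro k hk
    rw [mem_filter, mem_Icc] at hk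
    obtain ⟨⟨hk1, hkN⟩, hbk⟩ := hk
    have hkr : (1 : ℝ) ≤ k := by exact_mod_cast hk1
    have hbr : (2 : ℝ) ≤ b := by exact_mod_cast hb
    have hB : (1 : ℝ) ≤ (b : ℝ) ^ k := one_le_pow₀ (by linarith)
    have hB0 : (0 : ℝ) < (b : ℝ) ^ k := by linarith
    have hbk' : ((b : ℝ) ^ k) ^ 2 ≤ N := by
      have : ((b ^ (2 * k) : ℕ) : ℝ) ≤ N := by exact_mod_cast hbk
      rw [Nat.cast_pow] at this
      rw [← pow_mul, mul_comm k 2]
      exact this
    have hBy : (b : ℝ) ^ k ≤ y ^ 2 := by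
      have h1 : ((b : ℝ) ^ k) ^ 2 ≤ (y ^ 2) ^ 2 := by
        rw [← pow_mul y 2 2]
        rw [hy]
        exact hbk'
      exact (pow_le_pow_iff_left₀ hB0.le (by positivity) (by norm_num)).1 h1
    have hky : (k : ℝ) ≤ 2 * y := by
      have h1 : (k : ℝ) ^ 2 ≤ 4 * 2 ^ k := by exact_mod_cast SW_sq k
      have h2 : (2 : ℝ) ^ k ≤ (b : ℝ) ^ k := pow_le_pow_left₀ (by norm_num) hbr k
      have h3 : (k : ℝ) ^ 2 ≤ (2 * y) ^ 2 := by
        calc (k : ℝ) ^ 2 ≤ 4 * 2 ^ k := h1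
          _ ≤ 4 * y ^ 2 := by linarith
          _ = (2 * y) ^ 2 := by ring
      exact (pow_le_pow_iff_left₀ (by linarith) (by positivity) (by norm_num)).1 h3
    have hdiv : (N : ℝ) / (2 * k) ≤ ((N / k : ℕ) : ℝ) := by
      have h1 : N < k * (N / k + 1) := Nat.lt_mul_div_succ N (by omega)
      have h2 : 1 ≤ N / k := (Nat.one_le_div_iff (by omega)).2 hkN
      have h3 : N ≤ 2 * k * (N / k) := by nlinarith
      rw [div_le_iff₀ (by positivity)]
      have h4 : (N : ℝ) ≤ 2 * k * ((N / k : ℕ) : ℝ) := by exact_mod_cast h3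
      linarith
    have hx0 : (0 : ℝ) ≤ 1 - 1 / (b : ℝ) ^ k := by
      have : 1 / (b : ℝ) ^ k ≤ 1 := by
        rw [div_le_one hB0]
        exact hB
      linarith
    have hexp : (1 - 1 / (b : ℝ) ^ k) ^ (N / k) ≤ Real.exp (-(y / 4)) := by
      have h1 : 1 - 1 / (b : ℝ) ^ k ≤ Real.exp (-(1 / (b : ℝ) ^ k)) := by
        have := Real.add_one_le_exp (-(1 / (b : ℝ) ^ k))
        linarith
      calc (1 - 1 / (b : ℝ) ^ k) ^ (N / k) ≤ Real.exp (-(1 / (b : ℝ) ^ k)) ^ (N / k) :=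
            pow_le_pow_left₀ hx0 h1 _
        _ = Real.exp (((N / k : ℕ) : ℝ) * (-(1 / (b : ℝ) ^ k))) := by
            rw [← Real.exp_nat_mul]
        _ ≤ Real.exp (-(y / 4)) := by
            apply Real.exp_le_exp.2
            have h2 : y / 4 * (b : ℝ) ^ k ≤ ((N / k : ℕ) : ℝ) := by
              refine le_trans ?_ hdiv
              rw [le_div_iff₀ (by positivity), ← hy]
              calc y / 4 * (b : ℝ) ^ k * (2 * k) ≤ y / 4 * y ^ 2 * (2 * (2 * y)) := by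
                    gcongr
                _ = y ^ 4 := by ring
            have h3 : y / 4 ≤ ((N / k : ℕ) : ℝ) * (1 / (b : ℝ) ^ k) := by
              rw [mul_one_div, le_div_iff₀ hB0]
              exact h2
            linarith
    have hbN : (b : ℝ) ^ k ≤ N := by
      have h1 : (b : ℝ) ^ k ≤ ((b : ℝ) ^ k) ^ 2 := by nlinarith
      linarith
    exact mul_le_mul hbN hexp (pow_nonneg hx0 _) hN0.le
  have hsum := sum_le_card_nsmul _ _ _ hterm
  have hcard : (((Icc 1 N).filter (fun k => b ^ (2 * k) ≤ N)).card : ℝ) ≤ N := by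
    have h1 := card_filter_le (Icc 1 N) (fun k => b ^ (2 * k) ≤ N)
    rw [Nat.card_Icc, Nat.add_sub_cancel] at h1
    exact_mod_cast h1
  refine hsum.trans ?_
  rw [nsmul_eq_mul, le_div_iff₀ (by positivity)]
  have hfac := Real.pow_div_factorial_le_exp (y / 4) (by positivity) 16
  have hfac' : (y / 4) ^ 16 ≤ (Nat.factorial 16 : ℝ) * Real.exp (y / 4) := by
    rw [div_le_iff₀ (by positivity)] at hfac
    linarith
  have he : Real.exp (-(y / 4)) * Real.exp (y / 4) = 1 := by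
    rw [← Real.exp_add, neg_add_cancel, Real.exp_zero]
  have hE : 0 < Real.exp (-(y / 4)) := Real.exp_pos _
  have h5 : (N : ℝ) ^ 4 * Real.exp (-(y / 4)) ≤ 4 ^ 16 * (Nat.factorial 16 : ℝ) := by
    have h6 : (N : ℝ) ^ 4 = 4 ^ 16 * (y / 4) ^ 16 := by
      rw [← hy]
      ring
    rw [h6]
    calc 4 ^ 16 * (y / 4) ^ 16 * Real.exp (-(y / 4))
        ≤ 4 ^ 16 * ((Nat.factorial 16 : ℝ) * Real.exp (y / 4)) * Real.exp (-(y / 4)) := by
          gcongr
      _ = 4 ^ 16 * (Nat.factorial 16 : ℝ) * (Real.exp (-(y / 4)) * Real.exp (y / 4)) := by ring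
      _ = 4 ^ 16 * (Nat.factorial 16 : ℝ) := by rw [he, mul_one]
  calc (((Icc 1 N).filter (fun k => b ^ (2 * k) ≤ N)).card : ℝ) *
        (N * Real.exp (-(y / 4))) * (N : ℝ) ^ 2
      ≤ (N : ℝ) * (N * Real.exp (-(y / 4))) * (N : ℝ) ^ 2 := by
        gcongr
    _ = (N : ℝ) ^ 4 * Real.exp (-(y / 4)) := by ring
    _ ≤ _ := h5

end Pool.Agent.H44.NB
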